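import Pool.Agent.H80.PK.KStmts

set_option autoImplicit false

namespace Pool.PK

open Filter Topology

theorem map_dev {A B : Type} [Ring A] [Algebra ℂ A] [Ring B] [Algebra ℂ B] (φ : A →ₐ[ℂ] B) (x : A) :
    φ (dev x) = dev (φ x) := by
  simp only [dev, map_mul, map_sub, map_one, map_ofNat]

theorem continuous_dev' {A : Type} [NormedRing A] : Continuous (dev : A → A) := by
  unfold dev
  fun_prop

theorem dev_idem {A : Type} [Ring A] {f : A} (hf : f * f = f) : dev f = 0 := by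
  simp only [dev]
  rw [mul_sub, mul_one, hf, sub_self, mul_zero]

/-- near an idempotent `‖dev z‖ < 1` -/
theorem dev_near {A : Type} [NormedRing A] {f : A} (hf : f * f = f) :
    ∃ δ : ℝ, 0 < δ ∧ ∀ z : A, ‖z - f‖ < δ → ‖dev z‖ < 1 := by
  have hc : ContinuousAt (dev : A → A) f := continuous_dev'.continuousAt
  rw [Metric.continuousAt_iff] at hc
  obtain ⟨δ, hδ, h⟩ := hc 1 one_pos
  refine ⟨δ, hδ, fun z hz => ?_⟩
  have := h (x := z) (by rw [dist_eq_norm]; exact hz)
  rwa [dev_idem hf, dist_zero_right] at this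

theorem K0S (h1 : HFIStmt) (h2 : HFFStmt) (h3 : HFCStmt) (h4 : HFNStmt) (h5 : PTHStmt) :
    K0SStmt := by
  intro A B U _ _ _ _ _ _ _ _ ι φ hRS f hf
  obtain ⟨hφ, hι, hφι, hsp⟩ := hRS
  obtain ⟨δ, hδ, hdev⟩ := dev_near hf
  obtain ⟨x, hx⟩ := hφι.exists_dist_lt f hδ
  have hx' : ‖φ (ι x) - f‖ < δ := by
    rw [← dist_eq_norm, dist_comm]; exact hx
  -- powers of `dev`
  have hz : ∀ z : B, ‖z - f‖ < δ → Tendsto (fun k : ℕ => (dev z) ^ k) atTop (𝓝 0) := fun z h =>
    tendsto_pow_atTop_nhds_zero_of_norm_lt_one (hdev z h)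
  have hA : Tendsto (fun k : ℕ => (dev (ι x)) ^ k) atTop (𝓝 0) := by
    have := hsp (dev x) (by rw [map_dev, map_dev]; exact hz _ hx')
    rwa [map_dev] at this
  refine ⟨hfc (ι x), h1 A (ι x) hA, ?_⟩
  rw [h4 A B φ (ι x) hφ hA]
  -- the path
  set z : B := φ (ι x) with hzdef
  set q : ℝ → B := fun t => ((1 - t : ℝ) : ℂ) • z + ((t : ℝ) : ℂ) • f with hq
  have hqc : Continuous q := by
    rw [hq]
    fun_prop
  have hqb : ∀ t ∈ Set.Icc (0 : ℝ) 1, ‖q t - f‖ < δ := by
    intro t ht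
    have e1 : q t - f = ((1 - t : ℝ) : ℂ) • (z - f) := by
      simp only [hq]
      push_cast
      module
    rw [e1, norm_smul, Complex.norm_real, Real.norm_eq_abs, abs_of_nonneg (by linarith [ht.2])]
    calc (1 - t) * ‖z - f‖ ≤ 1 * ‖z - f‖ :=
          mul_le_mul_of_nonneg_right (by linarith [ht.1]) (norm_nonneg _)
      _ < δ := by rw [one_mul]; exact hx'
  have hp := h5 B (fun t => hfc (q t)) ?_ ?_
  · have e0 : q 0 = z := by simp [hq]
    have e1 : q 1 = f := by simp [hq]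
    simp only [e0, e1] at hp
    rwa [h2 B f hf] at hp
  · intro t ht
    have := h3 B (q t) (hz _ (hqb t ht))
    exact (ContinuousAt.comp (f := q) this hqc.continuousAt).continuousWithinAt
  · intro t ht
    exact h1 B (q t) (hz _ (hqb t ht))

end Pool.PK
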