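import Pool.Agent.H80.PK.KStmts

set_option autoImplicit false

namespace Pool.PK

open Filter Topology

theorem similar_symm' {R : Type} [Ring R] {e f : R} (h : Similar e f) : Similar f e := by
  obtain ⟨u, hu, h⟩ := h
  obtain ⟨v, rfl⟩ := hu
  refine ⟨((v⁻¹ : Rˣ) : R), (v⁻¹).isUnit, ?_⟩
  calc ((v⁻¹ : Rˣ) : R) * f = ((v⁻¹ : Rˣ) : R) * (f * (v : R)) * ((v⁻¹ : Rˣ) : R) := by
        rw [mul_assoc, mul_assoc, Units.mul_inv, mul_one]
    _ = ((v⁻¹ : Rˣ) : R) * ((v : R) * e) * ((v⁻¹ : Rˣ) : R) := by rw [h]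
    _ = e * ((v⁻¹ : Rˣ) : R) := by rw [← mul_assoc, Units.inv_mul, one_mul]

theorem similar_trans' {R : Type} [Ring R] {e f g : R} (h : Similar e f) (h' : Similar f g) :
    Similar e g := by
  obtain ⟨u, hu, h⟩ := h
  obtain ⟨v, hv, h'⟩ := h'
  refine ⟨v * u, hv.mul hu, ?_⟩
  rw [mul_assoc, h, ← mul_assoc, h', mul_assoc]

theorem similar_refl' {R : Type} [Ring R] (e : R) : Similar e e := ⟨1, isUnit_one, by simp⟩

theorem PTH (h1 : SIMStmt) : PTHStmt := by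
  intro A _ _ _ p hp hid
  -- local constancy
  have hloc : ∀ t ∈ Set.Icc (0 : ℝ) 1, ∃ ε > 0, ∀ s ∈ Set.Icc (0 : ℝ) 1, |s - t| < ε →
      Similar (p t) (p s) := by
    intro t ht
    obtain ⟨δ, hδ, hs⟩ := h1 A (p t) (hid t ht)
    have hc := hp t ht
    rw [Metric.continuousWithinAt_iff] at hc
    obtain ⟨ε, hε, h⟩ := hc δ hδ
    refine ⟨ε, hε, fun s hs' hst => hs (p s) (hid s hs') ?_⟩
    have := h hs' (by rw [Real.dist_eq]; exact hst)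
    rwa [dist_eq_norm] at this
  -- the interval is preconnected
  have hpre : IsPreconnected (Set.Icc (0 : ℝ) 1) := isPreconnected_Icc
  by_contra hcon
  set U : Set ℝ := {t | ∃ s ∈ Set.Icc (0 : ℝ) 1, Similar (p 0) (p s) ∧ ∃ ε > 0, |t - s| < ε ∧
    ∀ r ∈ Set.Icc (0 : ℝ) 1, |r - s| < ε → Similar (p s) (p r)} with hU
  set V : Set ℝ := {t | ∃ s ∈ Set.Icc (0 : ℝ) 1, ¬ Similar (p 0) (p s) ∧ ∃ ε > 0, |t - s| < ε ∧
    ∀ r ∈ Set.Icc (0 : ℝ) 1, |r - s| < ε → Similar (p s) (p r)} with hV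
  have hUo : IsOpen U := by
    rw [Metric.isOpen_iff]
    rintro t ⟨s, hs, hsim, ε, hε, hts, hr⟩
    refine ⟨ε - |t - s|, by linarith, fun x hx => ⟨s, hs, hsim, ε, hε, ?_, hr⟩⟩
    rw [Metric.mem_ball, Real.dist_eq] at hx
    have := abs_sub_le x t s
    linarith
  have hVo : IsOpen V := by
    rw [Metric.isOpen_iff]
    rintro t ⟨s, hs, hsim, ε, hε, hts, hr⟩
    refine ⟨ε - |t - s|, by linarith, fun x hx => ⟨s, hs, hsim, ε, hε, ?_, hr⟩⟩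
    rw [Metric.mem_ball, Real.dist_eq] at hx
    have := abs_sub_le x t s
    linarith
  have hcov : Set.Icc (0 : ℝ) 1 ⊆ U ∪ V := by
    intro t ht
    obtain ⟨ε, hε, h⟩ := hloc t ht
    by_cases hs : Similar (p 0) (p t)
    · exact Or.inl ⟨t, ht, hs, ε, hε, by simpa using hε, h⟩
    · exact Or.inr ⟨t, ht, hs, ε, hε, by simpa using hε, h⟩
  have h0 : (0 : ℝ) ∈ Set.Icc (0 : ℝ) 1 := ⟨le_rfl, zero_le_one⟩
  have h1' : (1 : ℝ) ∈ Set.Icc (0 : ℝ) 1 := ⟨zero_le_one, le_rfl⟩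
  have hUn : (Set.Icc (0 : ℝ) 1 ∩ U).Nonempty := by
    obtain ⟨ε, hε, h⟩ := hloc 0 h0
    exact ⟨0, h0, 0, h0, similar_refl' _, ε, hε, by simpa using hε, h⟩
  have hVn : (Set.Icc (0 : ℝ) 1 ∩ V).Nonempty := by
    obtain ⟨ε, hε, h⟩ := hloc 1 h1'
    exact ⟨1, h1', 1, h1', hcon, ε, hε, by simpa using hε, h⟩
  obtain ⟨t, ht, htU, htV⟩ := hpre U V hUo hVo hcov hUn hVn
  obtain ⟨s, hs, hsim, ε, hε, hts, hr⟩ := htU
  obtain ⟨s', hs', hsim', ε', hε', hts', hr'⟩ := htV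
  have a1 := hr t ht hts
  have a2 := hr' t ht hts'
  exact hsim' (similar_trans' hsim (similar_trans' a1 (similar_symm' a2)))

end Pool.PK
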